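import Pool.Agent.Lib_helper84.JO.Final

/-!
# Project JO, part FH: the holomorphic frame (definitions)

A cusp form is seen through its two expansions at the cusps `∞` (function `f`, coefficients `a`)
and `0` (function `g`, coefficients `b`), both functions on `ℂ` used only for `Im z > 0`.
-/

namespace Pool.Agent.JOF

open Pool.Agent.JO Complex MeasureTheory Filter Topology Set

/-- One expansion: `f(z) = ∑ a(n) e(nz)` on `Im z > 0`, `|f(z)| ≤ M (Im z)^{-k/2}`. -/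
structure Half (k : ℕ) (a : ℕ → ℂ) (f : ℂ → ℂ) (M : ℝ) : Prop where
  hk : 1 ≤ k
  a0 : a 0 = 0
  hol : DifferentiableOn ℂ f {z : ℂ | 0 < z.im}
  exp : ∀ z : ℂ, 0 < z.im →
    HasSum (fun n : ℕ => a n * cexp (2 * Real.pi * I * n * z)) (f z)
  bd : ∀ z : ℂ, 0 < z.im → ‖f z‖ ≤ M * z.im ^ (-((k : ℝ) / 2))

/-- A holomorphic cusp form `f` of weight `k` for `Γ₁(N)` together with its Fricke image `g`:
`f z = c z^{-k} g (-1/(N z))`. -/
structure Frame (k N : ℕ) (a b : ℕ → ℂ) (f g : ℂ → ℂ) (c : ℂ) (M : ℝ) : Prop where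
  hN : 1 ≤ N
  fh : Half k a f M
  gh : Half k b g M
  fricke : ∀ z : ℂ, 0 < z.im → f z = c * (z ^ k)⁻¹ * g (-1 / (N * z))
  modular : ∀ A B C D : ℤ, A * D - B * C = 1 → (N : ℤ) ∣ C → (N : ℤ) ∣ D - 1 →
    ∀ z : ℂ, 0 < z.im → f ((A * z + B) / (C * z + D)) = (C * z + D) ^ k * f z
  nonzero : ∃ z : ℂ, 0 < z.im ∧ f z ≠ 0

/-- The Hecke relation at a prime `p` where the character is `1`. -/
def HeckeAt (k p : ℕ) (ap : ℂ) (a : ℕ → ℂ) : Prop :=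
  ∀ n : ℕ, a (p * n) = ap * a n - (p : ℂ) ^ (k - 1) * (if p ∣ n then a (n / p) else 0)

/-- `G(w) = f(e^w) e^{kw/2}`, holomorphic on the strip `0 < Im w < π`. -/
noncomputable def GG (k : ℕ) (f : ℂ → ℂ) (w : ℂ) : ℂ :=
  f (cexp w) * cexp (((k : ℂ) / 2) * w)

/-- the Fourier transform of `G` (independent of the line, see `lam_line`) -/
noncomputable def Lam (k : ℕ) (f : ℂ → ℂ) (t : ℝ) : ℂ :=
  ∫ x : ℝ, GG k f (x + (Real.pi / 2 : ℝ) * I) * cexp (I * t * (x + (Real.pi / 2 : ℝ) * I))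

/-- `Q(θ) = ∫_0^∞ f(re^{iθ}) conj(f(re^{i conj θ})) r^k dr/r`, written with `r = e^x`. -/
noncomputable def QQ (k : ℕ) (f : ℂ → ℂ) (θ : ℂ) : ℂ :=
  ∫ x : ℝ, GG k f (x + I * θ) * (starRingEnd ℂ) (GG k f (x + I * (starRingEnd ℂ) θ))

/-- the ray function `F(θ) = P_θ(y^k |f|^2)`, holomorphic for `0 < Re θ < π` -/
noncomputable def FF (k : ℕ) (f : ℂ → ℂ) (θ : ℂ) : ℂ :=
  (Complex.sin θ) ^ k * QQ k f θ

/-- the L-function in the analytic normalisation, from the Mellin transform of `f(iy)`;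
`Gammaℂ s = 2 (2π)^{-s} Γ(s)` -/
noncomputable def LL (k : ℕ) (f : ℂ → ℂ) (s : ℂ) : ℂ :=
  mellin (fun y : ℝ => f (I * y)) (s + ((k : ℂ) - 1) / 2) *
    (2 / Complex.Gammaℂ (s + ((k : ℂ) - 1) / 2))

/-- `|Γ(k/2+it)|² e^{πt} (1 - (-1)^k e^{-2πt}) = 2π P_k(t)` -/
noncomputable def PP : ℕ → ℝ → ℝ
  | 0, _ => 0
  | 1, _ => 1
  | 2, t => t
  | (k + 3), t => ((((k : ℝ) + 1) / 2) ^ 2 + t ^ 2) * PP (k + 1) t

/-- the partition of unity: `hh κ r + hh κ (1/(κ r)) = 1` -/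
noncomputable def hh (κ r : ℝ) : ℝ :=
  Real.smoothTransition ((1 + (Real.log r + Real.log κ / 2)) / 2)

/-- the Laplace transform of `r^{k-1} hh κ r` -/
noncomputable def LT (k : ℕ) (κ : ℝ) (s : ℂ) : ℂ :=
  ∫ r in Ioi (0 : ℝ), ((r ^ (k - 1) * hh κ r : ℝ) : ℂ) * cexp (-(r * s))

/-- the same at a real point -/
noncomputable def lt (k : ℕ) (κ X : ℝ) : ℝ :=
  ∫ r in Ioi (0 : ℝ), r ^ (k - 1) * hh κ r * Real.exp (-(r * X))

/-- half of the shifted integral -/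
noncomputable def JJ (k : ℕ) (q : ℕ) (κ : ℝ) (f : ℂ → ℂ) (θ : ℝ) : ℂ :=
  ∫ r in Ioi (0 : ℝ), ((r ^ (k - 1) * hh κ r : ℝ) : ℂ) *
    (f (r * cexp (θ * I)) * (starRingEnd ℂ) (f (q * r * cexp (θ * I))))

/-- the diagonal sums -/
noncomputable def TT (L : ℝ → ℝ) (a : ℕ → ℂ) (X : ℝ) : ℝ :=
  ∑' n : ℕ, ‖a n‖ ^ 2 * L (n * X)

/-- the shifted diagonal sums -/
noncomputable def UU (L : ℝ → ℝ) (q : ℕ) (a : ℕ → ℂ) (X : ℝ) : ℂ :=
  ∑' n : ℕ, a (q * n) * (starRingEnd ℂ) (a n) * (L (n * X) : ℂ)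

/-- arithmetic coefficients of a form with analytically normalised coefficients `lam` -/
noncomputable def ac (k : ℕ) (lam : ℕ → ℂ) (n : ℕ) : ℂ :=
  if n = 0 then 0 else lam n * (((n : ℝ) ^ (((k : ℝ) - 1) / 2) : ℝ) : ℂ)

/-- a function on `ℍ` as a function on `ℂ` -/
noncomputable def fc (f : UpperHalfPlane → ℂ) (z : ℂ) : ℂ := f (UpperHalfPlane.ofComplex z)

end Pool.Agent.JOF
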